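import Pool.Agent.Helper21.TR.BadDefs

/-!
# Bad places given by diagonal matrices: reduction to counting
-/

open Module MTPairs

namespace TR

section diag
variable (K : Type*) [Field K] {m : Type*}

/-- Coordinate subspaces. -/
def coordSub (T : Finset m) : Submodule K (m → K) where
  carrier := {v | ∀ p, p ∉ T → v p = 0}
  add_mem' := by
    intro v w hv hw p hp
    rw [Pi.add_apply, hv p hp, hw p hp, add_zero]
  zero_mem' := fun _ _ => rfl
  smul_mem' := by
    intro c v hv p hp
    rw [Pi.smul_apply, hv p hp, smul_zero]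

variable {K}

lemma mem_coordSub {T : Finset m} {v : m → K} : v ∈ coordSub K T ↔ ∀ p, p ∉ T → v p = 0 := Iff.rfl

lemma coordSub_inf [DecidableEq m] (S T : Finset m) :
    coordSub K S ⊓ coordSub K T = coordSub K (S ∩ T) := by
  ext v
  rw [Submodule.mem_inf, mem_coordSub, mem_coordSub, mem_coordSub]
  constructor
  · rintro ⟨h1, h2⟩ p hp
    by_cases h : p ∈ S
    · exact h2 p (fun h' => hp (Finset.mem_inter.mpr ⟨h, h'⟩))
    · exact h1 p h
  · intro h
    exact ⟨fun p hp => h p (fun h' => hp (Finset.mem_inter.mp h').1),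
      fun p hp => h p (fun h' => hp (Finset.mem_inter.mp h').2)⟩

lemma finrank_coordSub [DecidableEq m] (T : Finset m) :
    finrank K (coordSub K T) = T.card := by
  let f : coordSub K T ≃ₗ[K] (T → K) :=
    { toFun := fun v p => (v : m → K) p
      map_add' := fun _ _ => rfl
      map_smul' := fun _ _ => rfl
      invFun := fun w => ⟨fun p => if h : p ∈ T then w ⟨p, h⟩ else 0, fun p hp => dif_neg hp⟩
      left_inv := by
        intro v
        apply Subtype.ext
        funext p
        by_cases h : p ∈ T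
        · simp [h]
        · simp [h, v.2 p h]
      right_inv := by
        intro w
        funext p
        simp }
  rw [LinearEquiv.finrank_eq f, Module.finrank_fintype_fun_eq_card, Fintype.card_coe]

variable [Fintype m] [DecidableEq m]

lemma maxGen_diagonal (x : m → K) (a : K) [DecidableEq K] :
    Module.End.maxGenEigenspace (Matrix.diagonal x).mulVecLin a =
      coordSub K (Finset.univ.filter fun p => x p = a) := by
  have key : ∀ (k : ℕ) (v : m → K) (p : m),
      ((((Matrix.diagonal x).mulVecLin - a • 1 : Module.End K (m → K)) ^ k) v) p =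
        (x p - a) ^ k * v p := by
    intro k
    induction k with
    | zero => intro v p; simp
    | succ k ih =>
      intro v p
      rw [pow_succ, Module.End.mul_apply, ih, LinearMap.sub_apply, Matrix.mulVecLin_apply,
        Pi.sub_apply, Matrix.mulVec_diagonal, LinearMap.smul_apply, Module.End.one_apply,
        Pi.smul_apply, smul_eq_mul, pow_succ]
      ring
  ext v
  rw [Module.End.mem_maxGenEigenspace, mem_coordSub]
  constructor
  · rintro ⟨k, hk⟩ p hp
    have h1 := congrFun hk p
    rw [key, Pi.zero_apply] at h1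
    rcases mul_eq_zero.mp h1 with h | h
    · exfalso
      apply hp
      rw [Finset.mem_filter]
      have hk0 : k ≠ 0 := by
        rintro rfl
        rw [pow_zero] at h
        exact one_ne_zero h
      exact ⟨Finset.mem_univ _, sub_eq_zero.mp ((pow_eq_zero_iff hk0).mp h)⟩
    · exact h
  · intro h
    refine ⟨1, ?_⟩
    funext p
    rw [key, pow_one, Pi.zero_apply]
    by_cases hp : x p = a
    · rw [hp, sub_self, zero_mul]
    · rw [h p (fun h' => hp (Finset.mem_filter.mp h').2), mul_zero]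

lemma zpow_two_inj [CharZero K] {i j : ℤ} (h : (2 : K) ^ i = (2 : K) ^ j) : i = j := by
  have h1 : ((2 : ℚ) ^ i : ℚ) = (2 : ℚ) ^ j := by
    have h2 : (((2 : ℚ) ^ i : ℚ) : K) = (((2 : ℚ) ^ j : ℚ) : K) := by
      push_cast
      exact h
    exact_mod_cast h2
  exact zpow_right_injective₀ (by norm_num) (by norm_num) h1

/-- Criterion: a diagonal element whose eigenvalues are powers of `2`. -/
theorem isBad_of_diag [CharZero K] {J : Matrix m m K} {u g : Matrix.GeneralLinearGroup m K}
    {r d : ℕ} (e : m → ℤ) (hg : (g : Matrix m m K) = Matrix.diagonal (fun p => (2 : K) ^ e p))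
    (A B : Finset m)
    (hker : LinearMap.ker ((u : Matrix m m K) - 1).mulVecLin = coordSub K A)
    (him : (⊤ : Submodule K (m → K)).map ((u : Matrix m m K) - 1).mulVecLin = coordSub K B)
    (hBA : B ⊆ A) {e0 : ℤ} (he0 : ∀ p ∈ B, e p = e0) {w : ℤ}
    (hJ : (g : Matrix m m K).transpose * J * (g : Matrix m m K) = (2 : K) ^ w • J)
    (hr : 0 < r) (hcard : B.card = r)
    (hd : d ∣ r) (hd1 : ∀ i : ℤ, 2 * i ≠ w → d ∣ ((A \ B).filter fun p => e p = i).card)
    (hd2 : ∀ i : ℤ, 2 * i = w → 2 * d ∣ ((A \ B).filter fun p => e p = i).card)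
    (hmax : ∀ d' : ℕ, d' ∣ r →
      (∀ i : ℤ, 2 * i ≠ w → d' ∣ ((A \ B).filter fun p => e p = i).card) →
      (∀ i : ℤ, 2 * i = w → 2 * d' ∣ ((A \ B).filter fun p => e p = i).card) → d' ∣ d) :
    IsBad J u g ⊤ r d := by
  classical
  have h20 : (2 : K) ≠ 0 := two_ne_zero
  -- multiplicities
  have hm : ∀ a : K, mlt (u : Matrix m m K) g ⊤ a =
      ((A \ B).filter fun p => (2 : K) ^ e p = a).card := by
    intro a
    rw [mlt, top_inf_eq, hker, him, hg, maxGen_diagonal, coordSub_inf, coordSub_inf,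
      finrank_coordSub, finrank_coordSub, ← Finset.card_sdiff_of_subset]
    · congr 1
      ext p
      simp only [Finset.mem_sdiff, Finset.mem_inter, Finset.mem_filter, Finset.mem_univ, true_and]
      tauto
    · exact Finset.inter_subset_inter_right hBA
  have hmi : ∀ i : ℤ, mlt (u : Matrix m m K) g ⊤ ((2 : K) ^ i) =
      ((A \ B).filter fun p => e p = i).card := by
    intro i
    rw [hm]
    congr 1
    ext p
    simp only [Finset.mem_filter]
    constructor
    · rintro ⟨h1, h2⟩; exact ⟨h1, zpow_two_inj h2⟩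
    · rintro ⟨h1, h2⟩; exact ⟨h1, by rw [h2]⟩
  have hm0 : ∀ a : K, (∀ i : ℤ, (2 : K) ^ i ≠ a) → mlt (u : Matrix m m K) g ⊤ a = 0 := by
    intro a ha
    rw [hm, Finset.card_eq_zero, Finset.filter_eq_empty_iff]
    exact fun p _ => ha (e p)
  have hsq : ∀ i : ℤ, (2 : K) ^ i * (2 : K) ^ i = (2 : K) ^ w ↔ 2 * i = w := by
    intro i
    rw [← zpow_add₀ h20]
    constructor
    · intro h
      have := zpow_two_inj h
      omega
    · rintro rfl
      congr 1
      ring
  have hdivs : ∀ d' : ℕ, Divs (u : Matrix m m K) g ⊤ r ((2 : K) ^ w) d' ↔ d' ∣ r ∧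
      (∀ i : ℤ, 2 * i ≠ w → d' ∣ ((A \ B).filter fun p => e p = i).card) ∧
      (∀ i : ℤ, 2 * i = w → 2 * d' ∣ ((A \ B).filter fun p => e p = i).card) := by
    intro d'
    constructor
    · rintro ⟨h1, h2⟩
      refine ⟨h1, fun i hi => ?_, fun i hi => ?_⟩
      · rw [← hmi]
        exact (h2 _).1 (fun h => hi ((hsq i).mp h))
      · rw [← hmi]
        exact (h2 _).2 ((hsq i).mpr hi)
    · rintro ⟨h1, h2, h3⟩
      refine ⟨h1, fun a => ?_⟩
      by_cases ha : ∃ i : ℤ, (2 : K) ^ i = a
      · obtain ⟨i, rfl⟩ := ha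
        rw [hmi]
        exact ⟨fun h => h2 i (fun h' => h ((hsq i).mpr h')), fun h => h3 i ((hsq i).mp h)⟩
      · push Not at ha
        rw [hm0 a ha]
        exact ⟨fun _ => dvd_zero _, fun _ => dvd_zero _⟩
  have heig : ∀ (a : K) (v : m → K), v ≠ 0 → (g : Matrix m m K).mulVec v = a • v →
      ∃ p, (2 : K) ^ e p = a := by
    intro a v hv h
    obtain ⟨p, hp⟩ : ∃ p, v p ≠ 0 := by
      by_contra hcon
      push Not at hcon
      exact hv (funext hcon)
    refine ⟨p, ?_⟩
    have h1 := congrFun h p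
    rw [hg, Matrix.mulVec_diagonal, Pi.smul_apply, smul_eq_mul] at h1
    exact mul_right_cancel₀ hp h1
  have hBim : ∀ v : m → K, ((u : Matrix m m K) - 1).mulVec v ∈ coordSub K B := by
    intro v
    rw [← him]
    exact ⟨v, trivial, rfl⟩
  refine ⟨hr, ⟨fun v _ => ?_, ?_⟩, ?_, ⟨(2 : K) ^ e0, fun v _ => ?_⟩, (2 : K) ^ w, hJ, ?_, ?_⟩
  · have h1 : ((u : Matrix m m K) - 1).mulVec v ∈ coordSub K A := fun p hp =>
      hBim v p (fun h => hp (hBA h))
    rw [← hker] at h1
    exact h1
  · rw [him, finrank_coordSub, hcard]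
  · intro a b v _ v' _ hv hv' h h' n hn hab
    obtain ⟨p, rfl⟩ := heig a v hv h
    obtain ⟨q, rfl⟩ := heig b v' hv' h'
    rw [← zpow_natCast, ← zpow_natCast, ← zpow_mul, ← zpow_mul] at hab
    have h1 := zpow_two_inj hab
    have hn' : (n : ℤ) ≠ 0 := by exact_mod_cast hn.ne'
    rw [mul_right_cancel₀ hn' h1]
  · rw [hg, maxGen_diagonal]
    intro p hp
    by_cases h : p ∈ B
    · exfalso
      apply hp
      rw [Finset.mem_filter]
      exact ⟨Finset.mem_univ _, by rw [he0 p h]⟩
    · exact hBim v p h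
  · exact (hdivs d).mpr ⟨hd, hd1, hd2⟩
  · intro d' h
    obtain ⟨h1, h2, h3⟩ := (hdivs d').mp h
    exact hmax d' h1 h2 h3

end diag

end TR
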