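import Pool.Agent.Helper80.TR.SharpSp
import Pool.Agent.Helper80.TR.Diag

/-!
The tensor product of the standard representations of the groups of symplectic similitudes in
dimension `2 a` and of orthogonal similitudes in dimension `2 c`: bad places.
-/

open Module MTPairs
open scoped Kronecker

namespace TR

section sp
variable {K : Type*} [Field K] {a : ℕ}

/-- The diagonal entries of a symplectic matrix. -/
def ev (t : Fin a → K) (p : Fin 2 × Fin a) : K := if p.1 = 0 then t p.2 else (t p.2)⁻¹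

/-- The diagonal matrices of determinant one in the group. -/
lemma diag_mem {n : Type*} [Fintype n] [DecidableEq n] {Q : Matrix n n K} (t : Fin a → K)
    (ht : ∀ k, t k ≠ 0) :
    ∃ g ∈ GenG (Gens2 (Sm K a) Q),
      (g : Matrix _ _ K) = Matrix.diagonal (ev t) ⊗ₖ (1 : Matrix n n K) := by
  classical
  have key : ∀ S : Finset (Fin a), ∃ g ∈ GenG (Gens2 (Sm K a) Q), (g : Matrix _ _ K) =
      Matrix.diagonal (ev fun k => if k ∈ S then t k else 1) ⊗ₖ (1 : Matrix n n K) := by
    intro S
    induction S using Finset.induction_on with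
    | empty =>
      refine ⟨1, (GenG _).one_mem, ?_⟩
      have : (ev fun k : Fin a => if k ∈ (∅ : Finset (Fin a)) then t k else 1) = fun _ => 1 := by
        funext p
        simp [ev]
      rw [this, Matrix.diagonal_one, Matrix.one_kronecker_one]
      rfl
    | insert k S hk ih =>
      obtain ⟨g, hg, hg'⟩ := ih
      set d1 : Fin a → Fin 2 := fun _ => 0 with hd1
      set d2 : Fin a → Fin 2 := fun j => if j = k then 1 else 0 with hd2
      have hP1 : Dd K d1 ⊗ₖ (1 : Matrix n n K) ∈ Gens2 (Sm K a) Q := Or.inl ⟨_, DdS_mem _, rfl⟩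
      have hP2 : Dd K d2 ⊗ₖ (1 : Matrix n n K) ∈ Gens2 (Sm K a) Q := Or.inl ⟨_, DdS_mem _, rfl⟩
      obtain ⟨g1, hg1, hg1'⟩ := (GenG_cochar (Gens2_idem _ hP1) hP1).2 (t k) (ht k)
      obtain ⟨g2, hg2, hg2'⟩ := (GenG_cochar (Gens2_idem _ hP2) hP2).2 (t k)⁻¹
        (inv_ne_zero (ht k))
      refine ⟨g * (g1 * g2), (GenG _).mul_mem hg ((GenG _).mul_mem hg1 hg2), ?_⟩
      have e : ∀ (t : K) (P : Matrix (Fin 2 × Fin a) (Fin 2 × Fin a) K),
          t • (P ⊗ₖ (1 : Matrix n n K)) + (1 - P ⊗ₖ (1 : Matrix n n K)) =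
          (t • P + (1 - P)) ⊗ₖ (1 : Matrix n n K) := by
        intro t P
        rw [Matrix.add_kronecker, Matrix.smul_kronecker, sub_kron, Matrix.one_kronecker_one]
      have e2 : ∀ (t : K) (d : Fin a → Fin 2), t • Dd K d + (1 - Dd K d) =
          Matrix.diagonal (fun p => if p.1 = d p.2 then t else 1) := by
        intro t d
        ext p q
        by_cases hpq : p = q
        · subst hpq
          by_cases h : p.1 = d p.2 <;> simp [Dd, h]
        · simp [Dd, Matrix.one_apply_ne hpq, Matrix.diagonal_apply_ne _ hpq]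
      rw [Units.val_mul, Units.val_mul, hg', hg1', hg2', e, e, e2, e2, ← Matrix.mul_kronecker_mul,
        ← Matrix.mul_kronecker_mul, Matrix.diagonal_mul_diagonal, Matrix.diagonal_mul_diagonal,
        one_mul, one_mul]
      congr 2
      funext p
      rcases p with ⟨i, j⟩
      simp only [ev, hd1, hd2, Finset.mem_insert]
      by_cases hjk : j = k
      · subst hjk
        by_cases hi : i = 0
        · subst hi
          simp [hk]
        · have hi1 : i = 1 := by
            fin_cases i
            · exact absurd rfl hi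
            · rfl
          subst hi1
          simp [hk]
      · by_cases hi : i = 0
        · subst hi
          simp [hjk, ht k]
        · have hi1 : i = 1 := by
            fin_cases i
            · exact absurd rfl hi
            · rfl
          subst hi1
          simp [hjk]
  obtain ⟨g, hg, hg'⟩ := key Finset.univ
  refine ⟨g, hg, ?_⟩
  rw [hg']
  simp

lemma exists_quad3 [CharZero K] {c s : ℕ} :
    ∃ u ∈ GenG (Gens2 (Sm K a) (Qm K c)), (u : Matrix _ _ K) - 1 = Nn K a s ⊗ₖ
      (1 : Matrix (Fin 2 × Fin c) (Fin 2 × Fin c) K) := by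
  set D : Matrix (Fin 2 × Fin a) (Fin 2 × Fin a) K := Dd K (fun _ : Fin a => (0 : Fin 2)) with hD
  set N : Matrix (Fin 2 × Fin a) (Fin 2 × Fin a) K := Nn K a s with hN
  have hP1 : D ⊗ₖ (1 : Matrix (Fin 2 × Fin c) (Fin 2 × Fin c) K) ∈ Gens2 (Sm K a) (Qm K c) :=
    Or.inl ⟨_, DdS_mem _, rfl⟩
  have hP2 : (D + N) ⊗ₖ (1 : Matrix (Fin 2 × Fin c) (Fin 2 × Fin c) K) ∈
      Gens2 (Sm K a) (Qm K c) := Or.inl ⟨_, DdNn_mem s, rfl⟩
  obtain ⟨g1, hg1, hg1'⟩ := (GenG_cochar (Gens2_idem _ hP2) hP2).2 2 two_ne_zero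
  obtain ⟨g2, hg2, hg2'⟩ := (GenG_cochar (Gens2_idem _ hP1) hP1).2 2⁻¹ (inv_ne_zero two_ne_zero)
  have hDD : D * D = D := (DdS_mem (K := K) (fun _ : Fin a => (0 : Fin 2))).1
  have hND : N * D = 0 := Nn_Dd0 s
  have hDN : D * N = N := Dd0_Nn s
  refine ⟨g1 * g2, (GenG _).mul_mem hg1 hg2, ?_⟩
  have e : ∀ (t : K) (P : Matrix (Fin 2 × Fin a) (Fin 2 × Fin a) K),
      t • (P ⊗ₖ (1 : Matrix (Fin 2 × Fin c) (Fin 2 × Fin c) K)) +
      (1 - P ⊗ₖ (1 : Matrix (Fin 2 × Fin c) (Fin 2 × Fin c) K)) =
      (t • P + (1 - P)) ⊗ₖ (1 : Matrix (Fin 2 × Fin c) (Fin 2 × Fin c) K) := by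
    intro t P
    rw [Matrix.add_kronecker, Matrix.smul_kronecker, sub_kron, Matrix.one_kronecker_one]
  rw [Units.val_mul, hg1', hg2', e, e, ← Matrix.mul_kronecker_mul, one_mul]
  have e3 : ((2 : K) • (D + N) + (1 - (D + N))) * ((2⁻¹ : K) • D + (1 - D)) = N + 1 := by
    have h2 : (2 : K) ≠ 0 := two_ne_zero
    simp only [add_mul, mul_add, sub_mul, mul_sub, smul_mul_assoc, mul_smul_comm, smul_add,
      hDD, hND, one_mul, mul_one, smul_zero, smul_smul, add_zero]
    rw [inv_mul_cancel₀ h2, one_smul, two_smul, two_smul]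
    simp only [sub_self, smul_zero]
    abel
  rw [e3, Matrix.add_kronecker, Matrix.one_kronecker_one]
  abel

lemma Nn_mulVec {n : Type*} [Fintype n] [DecidableEq n] (s : ℕ) (v : (Fin 2 × Fin a) × n → K)
    (p : (Fin 2 × Fin a) × n) :
    (Nn K a s ⊗ₖ (1 : Matrix n n K)).mulVec v p =
      if p.1.1 = 0 ∧ p.1.2.val < s then v (tau p.1, p.2) else 0 := by
  rcases p with ⟨i, x⟩
  rw [Matrix.mulVec, dotProduct, Fintype.sum_prod_type]
  simp only [Matrix.kroneckerMap_apply, Matrix.one_apply, mul_ite, mul_one, mul_zero,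
    ite_mul, zero_mul, Finset.sum_ite_eq, Finset.mem_univ, if_true]
  simp only [Nn]
  by_cases h : i.1 = 0 ∧ i.2.val < s
  · rw [Finset.sum_eq_single (tau i)]
    · rw [if_pos ⟨h.1, rfl, h.2⟩, one_mul, if_pos h]
    · intro j _ hj
      rw [if_neg, zero_mul]
      rintro ⟨-, h2, -⟩
      exact hj h2
    · intro h'; exact absurd (Finset.mem_univ _) h'
  · rw [Finset.sum_eq_zero, if_neg h]
    intro j _
    rw [if_neg, zero_mul]
    rintro ⟨h1, -, h3⟩
    exact h ⟨h1, h3⟩

lemma ev_mul_ev (t : Fin a → K) (ht : ∀ k, t k ≠ 0) (p : Fin 2 × Fin a) :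
    ev t p * ev t (tau p) = 1 := by
  rcases p with ⟨i, k⟩
  simp only [ev, tau]
  fin_cases i
  · simp [ht k]
  · simp [ht k]

lemma diag_sim {n : Type*} [Fintype n] [DecidableEq n] (Q : Matrix n n K) (t : Fin a → K)
    (ht : ∀ k, t k ≠ 0) :
    (Matrix.diagonal (ev t) ⊗ₖ (1 : Matrix n n K)).transpose * (Sm K a ⊗ₖ Q) *
      (Matrix.diagonal (ev t) ⊗ₖ (1 : Matrix n n K)) = Sm K a ⊗ₖ Q := by
  rw [← Matrix.kroneckerMap_transpose, Matrix.transpose_one, Matrix.diagonal_transpose,
    ← Matrix.mul_kronecker_mul, ← Matrix.mul_kronecker_mul, one_mul, mul_one]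
  congr 1
  ext p q
  rw [Matrix.mul_diagonal, Matrix.diagonal_mul]
  simp only [Sm]
  by_cases h : q = tau p
  · subst h
    rw [if_pos rfl]
    linear_combination (sg K p.1) * ev_mul_ev t ht p
  · rw [if_neg h, mul_zero, zero_mul]

/-- The bad places. -/
lemma exists_bad [CharZero K] {c s : ℕ} (hc : 2 ≤ c) (hs : 0 < s) (hsa : s ≤ a) :
    ∃ u ∈ GenG (Gens2 (Sm K a) (Qm K c)), ∃ g ∈ GenG (Gens2 (Sm K a) (Qm K c)),
      IsBad (Sm K a ⊗ₖ Qm K c) u g ⊤ (2 * c * s) (if s = a then 2 * c * s else 2 * c) := by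
  classical
  obtain ⟨u, hu, hu'⟩ := exists_quad3 (K := K) (a := a) (c := c) (s := s)
  let f : Fin a → ℤ := fun k => if k.val < s then 1 else 2 * (k.val + 1)
  let E : Fin 2 × Fin a → ℤ := fun p => if p.1 = 0 then f p.2 else - f p.2
  have h20 : (2 : K) ≠ 0 := two_ne_zero
  have ht : ∀ k, (fun k => (2 : K) ^ f k) k ≠ 0 := fun k => zpow_ne_zero _ h20
  obtain ⟨g, hg, hg'⟩ := diag_mem (Q := Qm K c) (fun k : Fin a => (2 : K) ^ f k) ht
  have hgd : (g : Matrix ((Fin 2 × Fin a) × (Fin 2 × Fin c)) ((Fin 2 × Fin a) × (Fin 2 × Fin c)) K) =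
      Matrix.diagonal (fun p : (Fin 2 × Fin a) × (Fin 2 × Fin c) => (2 : K) ^ E p.1) := by
    rw [hg', ← Matrix.diagonal_one, Matrix.diagonal_kronecker_diagonal]
    congr 1
    funext p
    simp only [mul_one, ev, E]
    split_ifs with h
    · rfl
    · rw [zpow_neg]
  refine ⟨u, hu, g, hg, ?_⟩
  have hE0 : ∀ p : Fin 2 × Fin a, s ≤ p.2.val → E p ≠ 0 := by
    intro p hp
    simp only [E, f, if_neg (not_lt.mpr hp)]
    split_ifs <;> omega
  have hEinj : ∀ p q : Fin 2 × Fin a, s ≤ p.2.val → s ≤ q.2.val → E p = E q → p = q := by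
    rintro ⟨i, k⟩ ⟨j, l⟩ hp hq h
    simp only at hp hq
    simp only [E, f, if_neg (not_lt.mpr hp), if_neg (not_lt.mpr hq)] at h
    by_cases hi : i = 0
    · by_cases hj : j = 0
      · subst hi; subst hj
        simp only [if_true] at h
        have : k = l := Fin.ext (by omega)
        rw [this]
      · rw [if_pos hi, if_neg hj] at h
        omega
    · by_cases hj : j = 0
      · rw [if_neg hi, if_pos hj] at h
        omega
      · rw [if_neg hi, if_neg hj] at h
        have h1 : k = l := Fin.ext (by omega)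
        have hi1 : i = 1 := by
          fin_cases i
          · exact absurd rfl hi
          · rfl
        have hj1 : j = 1 := by
          fin_cases j
          · exact absurd rfl hj
          · rfl
        rw [h1, hi1, hj1]
  set A : Finset ((Fin 2 × Fin a) × (Fin 2 × Fin c)) :=
    Finset.univ.filter fun p => ¬ (p.1.1 ≠ 0 ∧ p.1.2.val < s) with hA
  set B : Finset ((Fin 2 × Fin a) × (Fin 2 × Fin c)) :=
    Finset.univ.filter fun p => p.1.1 = 0 ∧ p.1.2.val < s with hB
  have hfilter : ∀ i : ℤ, ((A \ B).filter fun p => E p.1 = i) =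
      Finset.univ.filter fun p => s ≤ p.1.2.val ∧ E p.1 = i := by
    intro i
    ext p
    simp only [hA, hB, Finset.mem_filter, Finset.mem_sdiff, Finset.mem_univ, true_and]
    by_cases h1 : p.1.1 = 0 <;> by_cases h2 : p.1.2.val < s
    · simp [h1, h2]
    · simp [h1, h2, not_lt.mp h2]
    · simp [h1, h2]
    · simp [h1, h2, not_lt.mp h2]
  have hcount : ∀ q : Fin 2 × Fin a, s ≤ q.2.val →
      ((A \ B).filter fun p => E p.1 = E q).card = 2 * c := by
    intro q hq
    rw [hfilter]
    have h1 : (Finset.univ.filter fun p : (Fin 2 × Fin a) × (Fin 2 × Fin c) =>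
        s ≤ p.1.2.val ∧ E p.1 = E q) = {q} ×ˢ Finset.univ := by
      ext p
      simp only [Finset.mem_filter, Finset.mem_univ, true_and, Finset.mem_product,
        Finset.mem_singleton, and_true]
      constructor
      · rintro ⟨h1, h2⟩
        exact hEinj _ _ h1 hq h2
      · rintro h
        rw [h]
        exact ⟨hq, rfl⟩
    rw [h1, Finset.card_product, Finset.card_singleton, one_mul, Finset.card_univ,
      Fintype.card_prod, Fintype.card_fin, Fintype.card_fin]
  have hzero : ∀ i : ℤ, (∀ q : Fin 2 × Fin a, s ≤ q.2.val → E q ≠ i) →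
      ((A \ B).filter fun p => E p.1 = i).card = 0 := by
    intro i hi
    rw [hfilter, Finset.card_eq_zero, Finset.filter_eq_empty_iff]
    rintro p - ⟨h1, h2⟩
    exact hi p.1 h1 h2
  have hzero0 : ((A \ B).filter fun p => E p.1 = 0).card = 0 := hzero 0 hE0
  refine isBad_of_diag (e := fun p => E p.1) (w := 0) (e0 := 1) hgd A B ?_ ?_ ?_ ?_ ?_ ?_ ?_ ?_ ?_
    ?_ ?_
  · -- kernel
    ext v
    rw [LinearMap.mem_ker, Matrix.mulVecLin_apply, hu', mem_coordSub]
    constructor
    · intro h p hp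
      simp only [hA, Finset.mem_filter, Finset.mem_univ, true_and, not_not] at hp
      have h1 := congrFun h (tau p.1, p.2)
      rw [Nn_mulVec, Pi.zero_apply] at h1
      simp only [tau_tau] at h1
      rw [if_pos] at h1
      · exact h1
      · refine ⟨?_, ?_⟩
        · rw [tau_fst]
          have := hp.1
          generalize p.1.1 = x at this
          fin_cases x
          · exact absurd rfl this
          · rfl
        · rw [tau_snd]; exact hp.2
    · intro h
      funext p
      rw [Nn_mulVec, Pi.zero_apply]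
      split_ifs with hp
      · apply h
        simp only [hA, Finset.mem_filter, Finset.mem_univ, true_and, not_not]
        refine ⟨?_, ?_⟩
        · rw [tau_fst, hp.1]
          decide
        · rw [tau_snd]; exact hp.2
      · rfl
  · -- image
    apply le_antisymm
    · rintro _ ⟨v, -, rfl⟩
      rw [Matrix.mulVecLin_apply, hu']
      intro p hp
      rw [Nn_mulVec, if_neg]
      intro h
      apply hp
      simp only [hB, Finset.mem_filter, Finset.mem_univ, true_and]
      exact h
    · intro w hw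
      refine ⟨fun q => w (tau q.1, q.2), trivial, ?_⟩
      rw [Matrix.mulVecLin_apply, hu']
      funext p
      rw [Nn_mulVec]
      split_ifs with hp
      · simp only [tau_tau]
      · refine (hw p ?_).symm
        intro h
        apply hp
        simp only [hB, Finset.mem_filter, Finset.mem_univ, true_and] at h
        exact h
  · intro p hp
    simp only [hB, Finset.mem_filter, Finset.mem_univ, true_and] at hp
    simp only [hA, Finset.mem_filter, Finset.mem_univ, true_and]
    exact fun h => h.1 hp.1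
  · intro p hp
    simp only [hB, Finset.mem_filter, Finset.mem_univ, true_and] at hp
    simp only [E, f, if_pos hp.1, if_pos hp.2]
  · rw [hg', diag_sim _ _ ht, zpow_zero, one_smul]
  · positivity
  · have h1 : B = (Finset.univ.filter fun q : Fin 2 × Fin a => q.1 = 0 ∧ q.2.val < s) ×ˢ
        Finset.univ := by
      ext p
      simp [hB]
    have h2 : (Finset.univ.filter fun q : Fin 2 × Fin a => q.1 = 0 ∧ q.2.val < s) =
        {0} ×ˢ (Finset.univ.filter fun k : Fin a => k.val < s) := by
      ext p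
      simp only [Finset.mem_filter, Finset.mem_univ, true_and, Finset.mem_product,
        Finset.mem_singleton]
    rw [h1, h2, Finset.card_product, Finset.card_product, Finset.card_singleton, one_mul,
      Finset.card_univ, Fintype.card_prod, Fintype.card_fin, Fintype.card_fin,
      Fin.card_filter_val_lt, min_eq_right hsa]
    ring
  · split_ifs
    · exact dvd_rfl
    · exact Dvd.intro _ rfl
  · intro i _
    by_cases hi : ∃ q : Fin 2 × Fin a, s ≤ q.2.val ∧ E q = i
    · obtain ⟨q, hq, rfl⟩ := hi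
      rw [hcount q hq, if_neg]
      have := q.2.isLt
      omega
    · push Not at hi
      rw [hzero i hi]
      exact dvd_zero _
  · intro i hi
    have : i = 0 := by omega
    rw [this, hzero0]
    exact dvd_zero _
  · intro d' h1 h2 _
    split_ifs with h
    · exact h1
    · have hlt : s < a := lt_of_le_of_ne hsa h
      have h3 := h2 (E (0, ⟨s, hlt⟩)) (by
        have := hE0 (0, ⟨s, hlt⟩) le_rfl
        omega)
      rwa [hcount (0, ⟨s, hlt⟩) le_rfl] at h3

end sp

/-- Sharpness, Q9a: `Sp_2a (x) SO_2c`, unipotent of `Sp_2a` of rank `s`. -/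
theorem sharp_plus_sp (K : Type*) [Field K] [CharZero K] [IsAlgClosed K] {a c s : ℕ}
    (hc : 2 ≤ c) (hs : 0 < s) (hsa : s ≤ a) :
    ∃ (m : Type) (_ : Fintype m) (_ : DecidableEq m) (J : Matrix m m K)
      (G : Subgroup (Matrix.GeneralLinearGroup m K)), Fintype.card m = 4 * a * c ∧
      IsMTPair J G ∧ IsSplit J G (fun _ : Unit => (⊤ : Submodule K (m → K))) ∧
      (∃ u ∈ G, ∃ g ∈ G, IsBad J u g ⊤ (2 * c * s) (if s = a then 2 * c * s else 2 * c)) ∧
      ¬ IsFull J G (fun _ : Unit => (⊤ : Submodule K (m → K))) := by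
  have ha : 1 ≤ a := by omega
  have hskew : (Sm K a ⊗ₖ Qm K c).transpose = - (Sm K a ⊗ₖ Qm K c) := by
    rw [← Matrix.kroneckerMap_transpose, Sm_transpose, Qm_transpose]
    ext i j
    simp
  have hdet : (Sm K a ⊗ₖ Qm K c).det ≠ 0 := by
    have h : (Sm K a ⊗ₖ Qm K c) * (-(Sm K a ⊗ₖ Qm K c)) = 1 := by
      rw [mul_neg, ← Matrix.mul_kronecker_mul, Sm_sq, Qm_sq]
      ext i j
      rcases i with ⟨i, i'⟩
      rcases j with ⟨j, j'⟩
      simp only [Matrix.neg_apply, Matrix.kroneckerMap_apply, Matrix.one_apply, Prod.mk.injEq]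
      by_cases h1 : i = j <;> by_cases h2 : i' = j' <;> simp [h1, h2]
    intro h0
    have := congrArg Matrix.det h
    rw [Matrix.det_mul, h0, zero_mul, Matrix.det_one] at this
    exact zero_ne_one this
  refine ⟨(Fin 2 × Fin a) × (Fin 2 × Fin c), inferInstance, inferInstance, Sm K a ⊗ₖ Qm K c,
    GenG (Gens2 (Sm K a) (Qm K c)), ?_, isMTPair_gen hskew hdet Gens2_idem Gens2_lag, ?_,
    exists_bad hc hs hsa, ?_⟩
  · simp only [Fintype.card_prod, Fintype.card_fin]
    ring
  · refine ⟨?_, ?_, fun _ _ _ _ _ => trivial, ?_, ?_⟩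
    · rw [DirectSum.isInternal_submodule_iff_iSupIndep_and_iSup_eq_top]
      refine ⟨?_, by simp⟩
      intro i
      simp
    · intro i j hij
      exact absurd (Subsingleton.elim i j) hij
    · intro _ U _ hU
      have hU' : ∀ π ∈ Gens2 (Sm K a) (Qm K c), Pres U π := by
        intro π hπ v hv
        obtain ⟨g, hg, hgt⟩ := (GenG_cochar (Gens2_idem π hπ) hπ).2 2 two_ne_zero
        have h1 := hU g hg v hv
        have h2 : (g : Matrix _ _ K).mulVec v = π.mulVec v + v := by
          rw [hgt]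
          have : (2 : K) • π + (1 - π) = π + 1 := by rw [two_smul]; abel
          rw [this, Matrix.add_mulVec, Matrix.one_mulVec]
        rw [h2] at h1
        have := U.sub_mem h1 hv
        rwa [add_sub_cancel_right] at this
      exact irr_of_units (left_units hU') (right_units hc hU')
    · intro i j hij
      exact absurd (Subsingleton.elim i j) hij
  · intro hfull
    obtain ⟨g, hg, hgd⟩ := exists_not_dec2 (K := K) (a := a) (c := c) (by omega) (by omega)
    apply hgd
    have h1 := hfull g ⟨1, hg⟩ (fun _ _ _ => trivial)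
    have : Nonempty (Fin 2 × Fin a) := ⟨(0, ⟨0, by omega⟩)⟩
    have : Nonempty (Fin 2 × Fin c) := ⟨(0, ⟨0, by omega⟩)⟩
    exact GenG_le Dec2_closed Gens2_dec h1

end TR
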