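import Pool.Agent.Helper21.MT.Sharp2

/-!
The tensor product of the standard representations of the groups of symplectic similitudes in
dimension `2 a` and of orthogonal similitudes in dimension `2 c`.
-/

open Module MTPairs
open scoped Kronecker

namespace TR

section gen
variable {K : Type*} [Field K] {l n : Type*} [Fintype l] [Fintype n] [DecidableEq l]
  [DecidableEq n]

/-- The idempotents of the two factors. -/
def Gens2 (S : Matrix l l K) (Q : Matrix n n K) : Set (Matrix (l × n) (l × n) K) :=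
  {π | (∃ P ∈ LagSet S, π = P ⊗ₖ (1 : Matrix n n K)) ∨
    (∃ P ∈ LagSet Q, π = (1 : Matrix l l K) ⊗ₖ P)}

variable {S : Matrix l l K} {Q : Matrix n n K}

lemma Gens2_idem : ∀ π ∈ Gens2 S Q, π * π = π := by
  rintro π (⟨P, hP, rfl⟩ | ⟨P, hP, rfl⟩)
  · rw [← Matrix.mul_kronecker_mul, hP.1, one_mul]
  · rw [← Matrix.mul_kronecker_mul, hP.1, one_mul]

lemma Gens2_lag : ∀ π ∈ Gens2 S Q, π.transpose * (S ⊗ₖ Q) + (S ⊗ₖ Q) * π = S ⊗ₖ Q := by
  rintro π (⟨P, hP, rfl⟩ | ⟨P, hP, rfl⟩)
  · rw [← Matrix.kroneckerMap_transpose, Matrix.transpose_one, ← Matrix.mul_kronecker_mul,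
      ← Matrix.mul_kronecker_mul, one_mul, mul_one, ← Matrix.add_kronecker, hP.2]
  · rw [← Matrix.kroneckerMap_transpose, Matrix.transpose_one, ← Matrix.mul_kronecker_mul,
      ← Matrix.mul_kronecker_mul, one_mul, mul_one, ← Matrix.kronecker_add, hP.2]

variable (K l n) in
/-- The group of decomposable invertible matrices. -/
def Dec2 : Subgroup (Matrix.GeneralLinearGroup (l × n) K) where
  carrier := {g | ∃ (A : Matrix l l K) (C : Matrix n n K),
    (g : Matrix (l × n) (l × n) K) = A ⊗ₖ C}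
  one_mem' := ⟨1, 1, by rw [Matrix.one_kronecker_one]; rfl⟩
  mul_mem' := by
    rintro g h ⟨A, C, hg⟩ ⟨A', C', hh⟩
    exact ⟨A * A', C * C', by rw [Units.val_mul, hg, hh, Matrix.mul_kronecker_mul]⟩
  inv_mem' := by
    rintro g ⟨A, C, hg⟩
    refine ⟨A⁻¹, C⁻¹, ?_⟩
    rw [Matrix.coe_units_inv, hg, Matrix.inv_kronecker]

lemma Dec2_closed [Nonempty l] [Nonempty n] : ZariskiClosed (Dec2 K l n) := by
  refine ⟨{p | ∃ (i j i' j' : l) (k q k' q' : n), p =
    MvPolynomial.X ((i, k), (j, q)) * MvPolynomial.X ((i', k'), (j', q')) -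
    MvPolynomial.X ((i, k'), (j, q')) * MvPolynomial.X ((i', k), (j', q))}, fun g => ?_⟩
  constructor
  · rintro ⟨A, C, hg⟩ p ⟨i, j, i', j', k, q, k', q', rfl⟩
    simp only [map_sub, map_mul, MvPolynomial.eval_X, hg, Matrix.kroneckerMap_apply]
    ring
  · intro h
    have h' : ∀ (i j i' j' : l) (k q k' q' : n),
        (g : Matrix _ _ K) (i, k) (j, q) * (g : Matrix _ _ K) (i', k') (j', q') =
        (g : Matrix _ _ K) (i, k') (j, q') * (g : Matrix _ _ K) (i', k) (j', q) := by
      intro i j i' j' k q k' q'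
      have := h _ ⟨i, j, i', j', k, q, k', q', rfl⟩
      simp only [map_sub, map_mul, MvPolynomial.eval_X] at this
      exact sub_eq_zero.mp this
    obtain ⟨⟨i0, k0⟩, ⟨j0, l0⟩, h0⟩ : ∃ p q, (g : Matrix _ _ K) p q ≠ 0 := by
      by_contra hcon
      push Not at hcon
      have hz : (g : Matrix (l × n) (l × n) K) = 0 := by
        ext p q; exact hcon p q
      have hd : (g : Matrix (l × n) (l × n) K).det ≠ 0 :=
        ((Matrix.isUnit_iff_isUnit_det _).mp g.isUnit).ne_zero
      rw [hz, Matrix.det_zero] at hd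
      exact hd rfl
    refine ⟨fun i j => (g : Matrix _ _ K) (i, k0) (j, l0),
      fun k l => ((g : Matrix _ _ K) (i0, k0) (j0, l0))⁻¹ * (g : Matrix _ _ K) (i0, k) (j0, l), ?_⟩
    ext ⟨i, k⟩ ⟨j, l⟩
    change (g : Matrix _ _ K) (i, k) (j, l) = (g : Matrix _ _ K) (i, k0) (j, l0) *
      (((g : Matrix _ _ K) (i0, k0) (j0, l0))⁻¹ * (g : Matrix _ _ K) (i0, k) (j0, l))
    have := h' i j i0 j0 k l k0 l0
    field_simp
    linear_combination this

lemma Gens2_dec : ∀ π ∈ Gens2 S Q, IsCochar (Dec2 K l n) π := by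
  intro π hπ
  refine ⟨Gens2_idem π hπ, fun t ht => ?_⟩
  refine ⟨⟨t • π + (1 - π), t⁻¹ • π + (1 - π), torus_mul (Gens2_idem π hπ) ht, ?_⟩, ?_, rfl⟩
  · have := torus_mul (Gens2_idem π hπ) (inv_ne_zero ht)
    rwa [inv_inv] at this
  · rcases hπ with ⟨P, hP, rfl⟩ | ⟨P, hP, rfl⟩
    · refine ⟨t • P + (1 - P), 1, ?_⟩
      change t • (P ⊗ₖ (1 : Matrix n n K)) + (1 - P ⊗ₖ (1 : Matrix n n K)) = _
      rw [Matrix.add_kronecker, Matrix.smul_kronecker, sub_kron, Matrix.one_kronecker_one]
    · refine ⟨1, t • P + (1 - P), ?_⟩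
      change t • ((1 : Matrix l l K) ⊗ₖ P) + (1 - (1 : Matrix l l K) ⊗ₖ P) = _
      rw [Matrix.kronecker_add, Matrix.kronecker_smul, kron_sub, Matrix.one_kronecker_one]

/-- Irreducibility from matrix units of the two factors. -/
lemma irr_of_units {U : Submodule K (l × n → K)}
    (h1 : ∀ i j : l, Pres U (Matrix.single i j (1 : K) ⊗ₖ (1 : Matrix n n K)))
    (h2 : ∀ p q : n, Pres U ((1 : Matrix l l K) ⊗ₖ Matrix.single p q (1 : K))) :
    U = ⊥ ∨ U = ⊤ := by
  apply trivial_of_single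
  rintro ⟨i, p⟩ ⟨j, q⟩
  have h := (h1 i j).mul (h2 p q)
  rw [← Matrix.mul_kronecker_mul, one_mul, mul_one] at h
  have e : Matrix.single i j (1 : K) ⊗ₖ Matrix.single p q (1 : K) =
      Matrix.single (i, p) (j, q) 1 := by
    rw [Matrix.kroneckerMap_single_single]
    · simp
    · simp
    · simp
  rwa [e] at h

end gen

section sp
variable {K : Type*} [Field K] {a : ℕ}

variable (K) in
/-- the sign -/
def sg (s : Fin 2) : K := if s = 0 then 1 else -1

lemma sg_sq (s : Fin 2) : sg K s * sg K s = 1 := by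
  fin_cases s <;> simp [sg]

lemma sg_succ (s : Fin 2) : sg K (s + 1) = - sg K s := by
  fin_cases s <;> simp [sg]

lemma tau_fst (p : Fin 2 × Fin a) : (tau p).1 = p.1 + 1 := rfl
lemma tau_snd (p : Fin 2 × Fin a) : (tau p).2 = p.2 := rfl

lemma eq_tau_iff {p q : Fin 2 × Fin a} : p = tau q ↔ q = tau p := by
  constructor
  · rintro rfl; rw [tau_tau]
  · rintro rfl; rw [tau_tau]

lemma tau_inj {p q : Fin 2 × Fin a} : tau p = tau q ↔ p = q := by
  constructor
  · intro h; rw [← tau_tau p, h, tau_tau]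
  · rintro rfl; rfl

variable (K a) in
/-- The Gram matrix of the standard symplectic form. -/
def Sm : Matrix (Fin 2 × Fin a) (Fin 2 × Fin a) K :=
  fun p q => if q = tau p then sg K p.1 else 0

lemma Sm_mul (M : Matrix (Fin 2 × Fin a) (Fin 2 × Fin a) K) (p q : Fin 2 × Fin a) :
    (Sm K a * M) p q = sg K p.1 * M (tau p) q := by
  rw [Matrix.mul_apply]
  simp [Sm]

lemma mul_Sm (M : Matrix (Fin 2 × Fin a) (Fin 2 × Fin a) K) (p q : Fin 2 × Fin a) :
    (M * Sm K a) p q = M p (tau q) * sg K (tau q).1 := by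
  rw [Matrix.mul_apply]
  have : ∀ r, (Sm K a) r q = if r = tau q then sg K (tau q).1 else 0 := by
    intro r
    simp only [Sm]
    by_cases h : r = tau q
    · subst h; rw [tau_tau]; simp
    · rw [if_neg h, if_neg (fun h' => h (eq_tau_iff.mp h'))]
  simp [this]

lemma Sm_transpose : (Sm K a).transpose = - Sm K a := by
  ext p q
  rw [Matrix.transpose_apply, Matrix.neg_apply]
  simp only [Sm]
  by_cases h : q = tau p
  · subst h
    rw [tau_tau, if_pos rfl, if_pos rfl, tau_fst, sg_succ]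
  · rw [if_neg h, if_neg (fun h' => h (eq_tau_iff.mp h')), neg_zero]

lemma Sm_sq : Sm K a * Sm K a = -1 := by
  ext p q
  rw [Sm_mul, Matrix.neg_apply]
  simp only [Sm, tau_tau, Matrix.one_apply]
  by_cases h : q = p
  · subst h
    rw [if_pos rfl, if_pos rfl, tau_fst, sg_succ]
    have := sg_sq (K := K) q.1
    linear_combination -this
  · rw [if_neg h, if_neg (Ne.symm h)]; simp

lemma skewS_of_entries {M N : Matrix (Fin 2 × Fin a) (Fin 2 × Fin a) K}
    (h : ∀ x y, M x y + sg K x.1 * sg K y.1 * M (tau y) (tau x) = N x y) :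
    M.transpose * Sm K a + Sm K a * M = Sm K a * N := by
  ext p q
  rw [Matrix.add_apply, mul_Sm, Sm_mul, Sm_mul, Matrix.transpose_apply, ← h (tau p) q, tau_tau,
    tau_fst, sg_succ, tau_fst, sg_succ]
  have := sg_sq (K := K) p.1
  linear_combination (M (tau q) p * sg K q.1) * this

lemma DdS_mem (d : Fin a → Fin 2) : Dd K d ∈ LagSet (Sm K a) := by
  constructor
  · exact (Dd_mem (K := K) d).1
  · have := skewS_of_entries (M := Dd K d) (N := 1) (by
      intro x y
      by_cases hac : x = y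
      · subst hac
        rw [sg_sq, one_mul]
        simp only [Dd, Matrix.diagonal_apply_eq, Matrix.one_apply_eq, tau]
        rcases x with ⟨s, k⟩
        simp only
        generalize d k = x
        fin_cases s <;> fin_cases x <;> simp
      · have h2 : tau y ≠ tau x := fun h => hac (tau_inj.mp h).symm
        rw [Dd, Matrix.diagonal_apply_ne _ hac, Matrix.diagonal_apply_ne _ h2,
          Matrix.one_apply_ne hac, mul_zero, add_zero])
    rwa [mul_one] at this

/-- Long root elements. -/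
lemma Dd_add_long_mem {d : Fin a → Fin 2} {p : Fin 2 × Fin a} (h1 : d p.2 = p.1) :
    Dd K d + Matrix.single p (tau p) 1 ∈ LagSet (Sm K a) := by
  apply lag_add (DdS_mem d)
  · exact Dd_single h1.symm
  · apply single_Dd_zero
    rw [tau_snd, h1]; exact fin2_ne _
  · exact Matrix.single_mul_single_of_ne _ _ _ _ (tau_ne p) _
  · have := skewS_of_entries (M := Matrix.single p (tau p) (1 : K)) (N := 0) (by
      intro x y
      simp only [Matrix.single_apply, Matrix.zero_apply]
      by_cases h : p = x ∧ tau p = y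
      · obtain ⟨rfl, rfl⟩ := h
        rw [if_pos ⟨rfl, rfl⟩, if_pos ⟨(tau_tau p).symm, rfl⟩, tau_fst, sg_succ]
        have := sg_sq (K := K) p.1
        linear_combination -this
      · rw [if_neg h, if_neg, mul_zero, add_zero]
        rintro ⟨h2, h3⟩
        exact h ⟨tau_inj.mp h3, eq_tau_iff.mp h2 ▸ rfl⟩)
    rwa [mul_zero] at this

/-- The short root elements. -/
def RtS (K : Type*) [Field K] {a : ℕ} (p q : Fin 2 × Fin a) :
    Matrix (Fin 2 × Fin a) (Fin 2 × Fin a) K :=
  Matrix.single p q 1 - (sg K p.1 * sg K q.1) • Matrix.single (tau q) (tau p) 1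

lemma Dd_add_RtS_mem {d : Fin a → Fin 2} {p q : Fin 2 × Fin a} (hpq : p.2 ≠ q.2)
    (h1 : d p.2 = p.1) (h2 : d q.2 = q.1 + 1) : Dd K d + RtS K p q ∈ LagSet (Sm K a) := by
  have hne : p ≠ q := fun h => hpq (congrArg Prod.snd h)
  have hne2 : tau p ≠ tau q := fun h => hne (tau_inj.mp h)
  apply lag_add (DdS_mem d)
  · rw [RtS, mul_sub, mul_smul_comm, Dd_single h1.symm, Dd_single]
    rw [tau_fst, tau_snd]; exact h2.symm
  · rw [RtS, sub_mul, smul_mul_assoc, single_Dd_zero, single_Dd_zero, smul_zero, sub_zero]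
    · rw [tau_fst, tau_snd, h1]; exact fin2_ne _
    · rw [h2]; exact (fin2_ne _).symm
  · have a1 : Matrix.single p q (1 : K) * Matrix.single p q 1 = 0 :=
      Matrix.single_mul_single_of_ne _ _ _ _ hne.symm _
    have a2 : Matrix.single p q (1 : K) * Matrix.single (tau q) (tau p) 1 = 0 :=
      Matrix.single_mul_single_of_ne _ _ _ _ (tau_ne q).symm _
    have a3 : Matrix.single (tau q) (tau p) (1 : K) * Matrix.single p q 1 = 0 :=
      Matrix.single_mul_single_of_ne _ _ _ _ (tau_ne p) _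
    have a4 : Matrix.single (tau q) (tau p) (1 : K) * Matrix.single (tau q) (tau p) 1 = 0 :=
      Matrix.single_mul_single_of_ne _ _ _ _ hne2 _
    rw [RtS, sub_mul, mul_sub, mul_sub, mul_smul_comm, smul_mul_assoc, smul_mul_assoc,
      mul_smul_comm, a1, a2, a3, a4]; simp
  · have := skewS_of_entries (M := RtS K p q) (N := 0) (by
      intro x y
      simp only [RtS, Matrix.sub_apply, Matrix.smul_apply, Matrix.single_apply,
        Matrix.zero_apply, smul_eq_mul]
      have e2 : (p = tau y ∧ q = tau x) ↔ (tau q = x ∧ tau p = y) := by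
        constructor
        · rintro ⟨rfl, rfl⟩; exact ⟨tau_tau x, tau_tau y⟩
        · rintro ⟨rfl, rfl⟩; exact ⟨(tau_tau p).symm, (tau_tau q).symm⟩
      have e3 : (tau q = tau y ∧ tau p = tau x) ↔ (p = x ∧ q = y) := by
        rw [tau_inj, tau_inj]; exact and_comm
      rw [if_congr e2 rfl rfl, if_congr e3 rfl rfl]
      have hp := sg_sq (K := K) p.1
      have hq := sg_sq (K := K) q.1
      by_cases c1 : p = x ∧ q = y
      · obtain ⟨rfl, rfl⟩ := c1
        rw [if_pos ⟨rfl, rfl⟩]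
        have c2 : ¬ (tau q = p ∧ tau p = q) := by
          rintro ⟨h, -⟩
          apply hpq
          rw [← h, tau_snd]
        rw [if_neg c2]
        linear_combination (-(sg K q.1 * sg K q.1)) * hp - hq
      · rw [if_neg c1]
        by_cases c2 : tau q = x ∧ tau p = y
        · obtain ⟨rfl, rfl⟩ := c2
          rw [if_pos ⟨rfl, rfl⟩, tau_fst, tau_fst, sg_succ, sg_succ]
          ring
        · rw [if_neg c2]; ring)
    rwa [mul_zero] at this

/-- Matrix units of the symplectic factor. -/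
lemma left_units {n : Type*} [Fintype n] [DecidableEq n] {Q : Matrix n n K}
    {U : Submodule K ((Fin 2 × Fin a) × n → K)} (hU : ∀ π ∈ Gens2 (Sm K a) Q, Pres U π)
    (p q : Fin 2 × Fin a) :
    Pres U (Matrix.single p q (1 : K) ⊗ₖ (1 : Matrix n n K)) := by
  have hD : ∀ d : Fin a → Fin 2, Pres U (Dd K d ⊗ₖ (1 : Matrix n n K)) :=
    fun d => hU _ (Or.inl ⟨_, DdS_mem d, rfl⟩)
  have hlong : ∀ p : Fin 2 × Fin a, Pres U (Matrix.single p (tau p) (1 : K) ⊗ₖ
      (1 : Matrix n n K)) := by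
    intro p
    have h := (hU _ (Or.inl ⟨_, Dd_add_long_mem (d := fun _ => p.1) (p := p) rfl, rfl⟩)).sub
      (hD (fun _ => p.1))
    have e : (Dd K (fun _ => p.1) + Matrix.single p (tau p) (1 : K)) ⊗ₖ (1 : Matrix n n K) -
        Dd K (fun _ => p.1) ⊗ₖ (1 : Matrix n n K) =
        Matrix.single p (tau p) (1 : K) ⊗ₖ (1 : Matrix n n K) := by
      rw [Matrix.add_kronecker]; abel
    rwa [e] at h
  have hdiag : ∀ p : Fin 2 × Fin a, Pres U (Matrix.single p p (1 : K) ⊗ₖ
      (1 : Matrix n n K)) := by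
    intro p
    have h1 := hlong p
    have h2 := hlong (tau p)
    rw [tau_tau] at h2
    have h := h1.mul h2
    rw [← Matrix.mul_kronecker_mul, one_mul, Matrix.single_mul_single_same, one_mul] at h
    exact h
  by_cases hpq : p.2 = q.2
  · by_cases h1 : p = q
    · subst h1; exact hdiag p
    · have : q = tau p := by
        rcases p with ⟨s, k⟩
        rcases q with ⟨s', k'⟩
        simp only at hpq
        subst hpq
        simp only [tau, Prod.mk.injEq, and_true]
        simp only [Prod.mk.injEq, and_true] at h1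
        fin_cases s <;> fin_cases s' <;> simp_all
      subst this; exact hlong p
  · let d : Fin a → Fin 2 := Function.update (Function.update (fun _ => 0) p.2 p.1) q.2 (q.1 + 1)
    have d1 : d p.2 = p.1 := by simp [d, hpq]
    have d2 : d q.2 = q.1 + 1 := by simp [d]
    have hx : Pres U (RtS K p q ⊗ₖ (1 : Matrix n n K)) := by
      have h := (hU _ (Or.inl ⟨_, Dd_add_RtS_mem hpq d1 d2, rfl⟩)).sub (hD d)
      have e : (Dd K d + RtS K p q) ⊗ₖ (1 : Matrix n n K) - Dd K d ⊗ₖ (1 : Matrix n n K) =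
          RtS K p q ⊗ₖ (1 : Matrix n n K) := by
        rw [Matrix.add_kronecker]; abel
      rwa [e] at h
    have h := (hdiag p).mul hx
    rw [← Matrix.mul_kronecker_mul, one_mul, RtS, mul_sub, mul_smul_comm,
      Matrix.single_mul_single_same, one_mul, Matrix.single_mul_single_of_ne, smul_zero,
      sub_zero] at h
    · exact h
    · intro h'
      apply hpq
      rw [h', tau_snd]

/-- Matrix units of the orthogonal factor. -/
lemma right_units {c : ℕ} (hc : 2 ≤ c) {l : Type*} [Fintype l] [DecidableEq l]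
    {S : Matrix l l K} {U : Submodule K (l × (Fin 2 × Fin c) → K)}
    (hU : ∀ π ∈ Gens2 S (Qm K c), Pres U π) (p q : Fin 2 × Fin c) :
    Pres U ((1 : Matrix l l K) ⊗ₖ Matrix.single p q (1 : K)) := by
  have hD : ∀ d : Fin c → Fin 2, Pres U ((1 : Matrix l l K) ⊗ₖ Dd K d) :=
    fun d => hU _ (Or.inr ⟨_, Dd_mem d, rfl⟩)
  have hright1 : ∀ p q : Fin 2 × Fin c, p.2 ≠ q.2 →
      Pres U ((1 : Matrix l l K) ⊗ₖ Matrix.single p q (1 : K)) := by
    intro p q hpq
    let d : Fin c → Fin 2 := Function.update (Function.update (fun _ => 0) p.2 p.1) q.2 (q.1 + 1)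
    have d1 : d p.2 = p.1 := by simp [d, hpq]
    have d2 : d q.2 = q.1 + 1 := by simp [d]
    let d' : Fin c → Fin 2 := Function.update (Function.update (fun _ => 0) p.2 p.1) q.2 q.1
    have d1' : d' p.2 = p.1 := by simp [d', hpq]
    have d2' : d' q.2 = q.1 := by simp [d']
    have hx : Pres U ((1 : Matrix l l K) ⊗ₖ Rt K p q) := by
      have h := (hU _ (Or.inr ⟨_, Dd_add_Rt_mem hpq d1 d2, rfl⟩)).sub (hD d)
      have e : (1 : Matrix l l K) ⊗ₖ (Dd K d + Rt K p q) - (1 : Matrix l l K) ⊗ₖ Dd K d =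
          (1 : Matrix l l K) ⊗ₖ Rt K p q := by
        rw [Matrix.kronecker_add]; abel
      rwa [e] at h
    have h := (hD d').mul hx
    rw [← Matrix.mul_kronecker_mul, one_mul, Rt, mul_sub, Dd_single d1'.symm, Dd_single_zero,
      sub_zero] at h
    · exact h
    · simp only [tau]; rw [d2']; exact fin2_ne _
  by_cases hpq : p.2 = q.2
  · obtain ⟨k, hk⟩ : ∃ k : Fin c, k ≠ q.2 := by
      have : Nontrivial (Fin c) := Fin.nontrivial_iff_two_le.mpr hc
      exact exists_ne q.2
    have a1 := hright1 p ((0 : Fin 2), k) (by rw [hpq]; exact hk.symm)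
    have a2 := hright1 ((0 : Fin 2), k) q hk
    have h := a1.mul a2
    rw [← Matrix.mul_kronecker_mul, one_mul, Matrix.single_mul_single_same, one_mul] at h
    exact h
  · exact hright1 p q hpq

/-! ### The quadratic element -/

variable (K) in
/-- the nilpotent element of rank `s` -/
def Nn (a s : ℕ) : Matrix (Fin 2 × Fin a) (Fin 2 × Fin a) K :=
  fun p q => if p.1 = 0 ∧ q = tau p ∧ p.2.val < s then 1 else 0

lemma Dd0_Nn (s : ℕ) : Dd K (fun _ : Fin a => (0 : Fin 2)) * Nn K a s = Nn K a s := by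
  ext p q
  rw [Dd, Matrix.diagonal_mul]
  by_cases h : p.1 = 0
  · rw [if_pos h, one_mul]
  · rw [if_neg h, zero_mul]
    simp [Nn, h]

lemma Nn_Dd0 (s : ℕ) : Nn K a s * Dd K (fun _ : Fin a => (0 : Fin 2)) = 0 := by
  ext p q
  rw [Dd, Matrix.mul_diagonal]
  by_cases h : q.1 = 0
  · have : ¬ (p.1 = 0 ∧ q = tau p ∧ p.2.val < s) := by
      rintro ⟨h1, rfl, -⟩
      rw [tau_fst, h1] at h
      simp at h
    simp [Nn, this]
  · rw [if_neg h, mul_zero]; rfl

lemma Nn_sq (s : ℕ) : Nn K a s * Nn K a s = 0 := by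
  calc Nn K a s * Nn K a s
      = Nn K a s * (Dd K (fun _ : Fin a => (0 : Fin 2)) * Nn K a s) := by rw [Dd0_Nn]
    _ = 0 := by rw [← mul_assoc, Nn_Dd0, zero_mul]

lemma DdNn_mem (s : ℕ) : Dd K (fun _ : Fin a => (0 : Fin 2)) + Nn K a s ∈ LagSet (Sm K a) := by
  apply lag_add (DdS_mem _) (Dd0_Nn s) (Nn_Dd0 s) (Nn_sq s)
  have := skewS_of_entries (M := Nn K a s) (N := 0) (by
    intro x y
    simp only [Nn, Matrix.zero_apply]
    by_cases h : x.1 = 0 ∧ y = tau x ∧ x.2.val < s
    · obtain ⟨h1, rfl, h2⟩ := h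
      rw [if_pos ⟨h1, rfl, h2⟩, tau_tau, if_pos ⟨h1, rfl, h2⟩, tau_fst, sg_succ]
      have := sg_sq (K := K) x.1
      linear_combination -this
    · rw [if_neg h, if_neg, mul_zero, add_zero]
      rintro ⟨h1, h2, h3⟩
      rw [tau_tau] at h2
      have h4 : y = tau x := h2.symm
      subst h4
      rw [tau_tau] at h1 h3
      exact h ⟨h1, rfl, h3⟩)
  rwa [mul_zero] at this

lemma exists_quad2 [CharZero K] {c s : ℕ} (hs : s ≤ a) :
    ∃ u ∈ GenG (Gens2 (Sm K a) (Qm K c)), IsQuadraticOn u ⊤ (2 * c * s) := by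
  set D : Matrix (Fin 2 × Fin a) (Fin 2 × Fin a) K := Dd K (fun _ : Fin a => (0 : Fin 2)) with hD
  set N : Matrix (Fin 2 × Fin a) (Fin 2 × Fin a) K := Nn K a s with hN
  have hP1 : D ⊗ₖ (1 : Matrix (Fin 2 × Fin c) (Fin 2 × Fin c) K) ∈ Gens2 (Sm K a) (Qm K c) :=
    Or.inl ⟨_, DdS_mem _, rfl⟩
  have hP2 : (D + N) ⊗ₖ (1 : Matrix (Fin 2 × Fin c) (Fin 2 × Fin c) K) ∈
      Gens2 (Sm K a) (Qm K c) := Or.inl ⟨_, DdNn_mem s, rfl⟩
  obtain ⟨g1, hg1, hg1'⟩ := (GenG_cochar (Gens2_idem _ hP2) hP2).2 2 two_ne_zero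
  obtain ⟨g2, hg2, hg2'⟩ := (GenG_cochar (Gens2_idem _ hP1) hP1).2 2⁻¹ (inv_ne_zero two_ne_zero)
  have hDD : D * D = D := (DdS_mem (K := K) (fun _ : Fin a => (0 : Fin 2))).1
  have hND : N * D = 0 := Nn_Dd0 s
  have hDN : D * N = N := Dd0_Nn s
  have hNN : N * N = 0 := Nn_sq s
  have hu : ((g1 * g2 : Matrix.GeneralLinearGroup ((Fin 2 × Fin a) × (Fin 2 × Fin c)) K) :
      Matrix _ _ K) - 1 = N ⊗ₖ (1 : Matrix (Fin 2 × Fin c) (Fin 2 × Fin c) K) := by
    have e : ∀ (t : K) (P : Matrix (Fin 2 × Fin a) (Fin 2 × Fin a) K),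
        t • (P ⊗ₖ (1 : Matrix (Fin 2 × Fin c) (Fin 2 × Fin c) K)) +
        (1 - P ⊗ₖ (1 : Matrix (Fin 2 × Fin c) (Fin 2 × Fin c) K)) =
        (t • P + (1 - P)) ⊗ₖ (1 : Matrix (Fin 2 × Fin c) (Fin 2 × Fin c) K) := by
      intro t P
      rw [Matrix.add_kronecker, Matrix.smul_kronecker, sub_kron, Matrix.one_kronecker_one]
    rw [Units.val_mul, hg1', hg2', e, e, ← Matrix.mul_kronecker_mul, one_mul]
    have e3 : ((2 : K) • (D + N) + (1 - (D + N))) * ((2⁻¹ : K) • D + (1 - D)) = N + 1 := by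
      have h2 : (2 : K) ≠ 0 := two_ne_zero
      simp only [add_mul, mul_add, sub_mul, mul_sub, smul_mul_assoc, mul_smul_comm, smul_add,
        hDD, hND, one_mul, mul_one, smul_zero, smul_smul, add_zero]
      rw [inv_mul_cancel₀ h2, one_smul, two_smul, two_smul]
      simp only [sub_self, smul_zero]
      abel
    rw [e3, Matrix.add_kronecker, Matrix.one_kronecker_one]
    abel
  refine ⟨g1 * g2, (GenG _).mul_mem hg1 hg2, ?_, ?_⟩
  · intro v _
    rw [hu, Matrix.mulVec_mulVec, ← Matrix.mul_kronecker_mul, hNN]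
    simp
  · rw [hu]
    let f : (Fin s × (Fin 2 × Fin c) → K) →ₗ[K] ((Fin 2 × Fin a) × (Fin 2 × Fin c) → K) :=
      { toFun := fun w x => if h : x.1.1 = 0 ∧ x.1.2.val < s then w (⟨x.1.2.val, h.2⟩, x.2) else 0
        map_add' := by
          intro w w'; ext x; by_cases hx : x.1.1 = 0 ∧ x.1.2.val < s <;> simp [hx]
        map_smul' := by
          intro c w; ext x; by_cases hx : x.1.1 = 0 ∧ x.1.2.val < s <;> simp [hx] }
    have hf : Function.Injective f := by
      intro w w' h
      ext ⟨k, x⟩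
      have := congrFun h ((0, ⟨k.val, lt_of_lt_of_le k.isLt hs⟩), x)
      simpa [f] using this
    have hmul : ∀ v : (Fin 2 × Fin a) × (Fin 2 × Fin c) → K,
        (N ⊗ₖ (1 : Matrix (Fin 2 × Fin c) (Fin 2 × Fin c) K)).mulVec v =
        f (fun x => v ((1, ⟨x.1.val, lt_of_lt_of_le x.1.isLt hs⟩), x.2)) := by
      intro v
      ext ⟨i, x⟩
      rw [Matrix.mulVec, dotProduct, Fintype.sum_prod_type]
      simp only [Matrix.kroneckerMap_apply, Matrix.one_apply, mul_ite, mul_one, mul_zero,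
        ite_mul, zero_mul, Finset.sum_ite_eq, Finset.mem_univ, if_true]
      simp only [hN, Nn]
      by_cases h : i.1 = 0 ∧ i.2.val < s
      · rw [Finset.sum_eq_single (tau i)]
        · rw [if_pos ⟨h.1, rfl, h.2⟩, one_mul]
          change _ = dite _ _ _
          rw [dif_pos h]
          congr 1
          ext
          · simp [tau, h.1]
          · simp [tau]
          · rfl
          · rfl
        · intro j _ hj
          rw [if_neg, zero_mul]
          rintro ⟨-, h2, -⟩
          exact hj h2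
        · intro h'; exact absurd (Finset.mem_univ _) h'
      · rw [Finset.sum_eq_zero]
        · change _ = dite _ _ _
          rw [dif_neg h]
        · intro j _
          rw [if_neg, zero_mul]
          rintro ⟨h1, -, h3⟩
          exact h ⟨h1, h3⟩
    have he : (⊤ : Submodule K ((Fin 2 × Fin a) × (Fin 2 × Fin c) → K)).map
        (N ⊗ₖ (1 : Matrix (Fin 2 × Fin c) (Fin 2 × Fin c) K)).mulVecLin = LinearMap.range f := by
      apply le_antisymm
      · rintro _ ⟨v, -, rfl⟩
        rw [Matrix.mulVecLin_apply, hmul]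
        exact ⟨_, rfl⟩
      · rintro _ ⟨w, rfl⟩
        refine ⟨fun x => if h : x.1.2.val < s then w (⟨x.1.2.val, h⟩, x.2) else 0, trivial, ?_⟩
        rw [Matrix.mulVecLin_apply, hmul]
        congr 1
        ext x
        simp
    rw [he, LinearMap.finrank_range_of_inj hf, Module.finrank_fintype_fun_eq_card]
    simp only [Fintype.card_prod, Fintype.card_fin]
    ring

end sp

section notdec
variable {K : Type*} [Field K] {a c : ℕ}

/-- A symplectic transvection that is not decomposable. -/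
lemma exists_not_dec2 (ha : 0 < a) (hc : 0 < c) :
    ∃ g : Matrix.GeneralLinearGroup ((Fin 2 × Fin a) × (Fin 2 × Fin c)) K,
      (g : Matrix _ _ K).transpose * (Sm K a ⊗ₖ Qm K c) * (g : Matrix _ _ K) =
        (1 : K) • (Sm K a ⊗ₖ Qm K c) ∧
        g ∉ Dec2 K (Fin 2 × Fin a) (Fin 2 × Fin c) := by
  set x0 : Fin 2 × Fin a := (0, ⟨0, ha⟩) with hx0
  set y0 : Fin 2 × Fin c := (0, ⟨0, hc⟩) with hy0
  set J := Sm K a ⊗ₖ Qm K c with hJ
  set p : (Fin 2 × Fin a) × (Fin 2 × Fin c) := (x0, y0) with hp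
  set p' : (Fin 2 × Fin a) × (Fin 2 × Fin c) := (tau x0, tau y0) with hp'
  have hne : p' ≠ p := by
    intro h
    exact tau_ne x0 (congrArg Prod.fst h)
  have hsq : Matrix.single p p' (1 : K) * Matrix.single p p' 1 = 0 :=
    Matrix.single_mul_single_of_ne _ _ _ _ hne _
  let g : Matrix.GeneralLinearGroup ((Fin 2 × Fin a) × (Fin 2 × Fin c)) K :=
    ⟨1 + Matrix.single p p' 1, 1 - Matrix.single p p' 1,
      by
        have e : (1 + Matrix.single p p' (1 : K)) * (1 - Matrix.single p p' 1) =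
          1 - Matrix.single p p' (1 : K) * Matrix.single p p' 1 := by noncomm_ring
        rw [e, hsq, sub_zero],
      by
        have e : (1 - Matrix.single p p' (1 : K)) * (1 + Matrix.single p p' 1) =
          1 - Matrix.single p p' (1 : K) * Matrix.single p p' 1 := by noncomm_ring
        rw [e, hsq, sub_zero]⟩
  refine ⟨g, ?_, ?_⟩
  · change (1 + Matrix.single p p' (1 : K)).transpose * J * (1 + Matrix.single p p' 1) = _
    rw [Matrix.transpose_add, Matrix.transpose_one, Matrix.transpose_single, one_smul]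
    have hJ1 : ∀ y, J p y = if p' = y then 1 else 0 := by
      rintro ⟨y1, y2⟩
      rw [hJ, hp, hp', Matrix.kroneckerMap_apply]
      simp only [Qm, Sm, Prod.mk.injEq]
      by_cases h1 : y1 = tau x0
      · by_cases h2 : y2 = tau y0
        · rw [if_pos h1, if_pos h2, if_pos ⟨h1.symm, h2.symm⟩]; simp [sg, hx0]
        · rw [if_neg h2, mul_zero, if_neg (fun h => h2 h.2.symm)]
      · rw [if_neg h1, zero_mul, if_neg (fun h => h1 h.1.symm)]
    have hJ2 : ∀ x, J x p = if p' = x then -1 else 0 := by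
      rintro ⟨y1, y2⟩
      rw [hJ, hp, hp', Matrix.kroneckerMap_apply]
      simp only [Qm, Sm, Prod.mk.injEq]
      by_cases h1 : y1 = tau x0
      · by_cases h2 : y2 = tau y0
        · rw [if_pos (eq_tau_iff.mp h1), if_pos (eq_tau_iff.mp h2), if_pos ⟨h1.symm, h2.symm⟩, h1,
            tau_fst, sg_succ]
          simp [sg, hx0]
        · rw [if_neg (c := y0 = tau y2) (fun h => h2 (eq_tau_iff.mp h)), mul_zero,
            if_neg (fun h => h2 h.2.symm)]
      · rw [if_neg (c := x0 = tau y1) (fun h => h1 (eq_tau_iff.mp h)), zero_mul,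
          if_neg (fun h => h1 h.1.symm)]
    have e1 : Matrix.single p' p (1 : K) * J = Matrix.single p' p' 1 := by
      ext x y
      rw [Matrix.single_apply]
      by_cases hx : p' = x
      · subst hx
        rw [Matrix.single_mul_apply_same, one_mul, hJ1]
        simp
      · rw [Matrix.single_mul_apply_of_ne _ _ _ _ _ (Ne.symm hx)]
        simp [hx]
    have e2 : J * Matrix.single p p' (1 : K) = - Matrix.single p' p' 1 := by
      ext x y
      rw [Matrix.neg_apply, Matrix.single_apply]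
      by_cases hy : p' = y
      · subst hy
        rw [Matrix.mul_single_apply_same, mul_one, hJ2]
        by_cases hx : p' = x <;> simp [hx]
      · rw [Matrix.mul_single_apply_of_ne _ _ _ _ _ (Ne.symm hy)]
        simp [hy]
    have e3 : Matrix.single p' p' (1 : K) * Matrix.single p p' 1 = 0 :=
      Matrix.single_mul_single_of_ne _ _ _ _ hne _
    rw [add_mul, one_mul, e1, mul_add, mul_one, add_mul, e2, e3]
    abel
  · rintro ⟨A, C, hg⟩
    have hg' : ∀ x y, (1 + Matrix.single p p' (1 : K)) x y = (A ⊗ₖ C) x y := by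
      intro x y; rw [← hg]
    have h1 := hg' (x0, y0) (tau x0, tau y0)
    have h2 := hg' (x0, y0) (x0, y0)
    have h3 := hg' (x0, y0) (tau x0, y0)
    have n1 : x0 ≠ tau x0 := (tau_ne x0).symm
    have n2 : y0 ≠ tau y0 := (tau_ne y0).symm
    simp only [Matrix.kroneckerMap_apply, Matrix.add_apply, Matrix.one_apply,
      Matrix.single_apply, hp, hp', Prod.mk.injEq, n1, n2, n1.symm, n2.symm, and_self, and_false,
      and_true, if_true, if_false, add_zero, zero_add] at h1 h2 h3
    rcases mul_eq_zero.mp h3.symm with h3 | h3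
    · rw [h3, zero_mul] at h1; exact one_ne_zero h1
    · rw [h3, mul_zero] at h2; exact one_ne_zero h2

end notdec

/-- E2: Sp_2a (x) SO_2c, unipotent of Sp_2a of rank s. -/
theorem sharp_sp_so (K : Type*) [Field K] [CharZero K] {a c s : ℕ} (ha : 1 ≤ a) (hc : 2 ≤ c)
    (hs : s ≤ a) : ∃ (m : Type) (_ : Fintype m) (_ : DecidableEq m) (J : Matrix m m K)
      (G : Subgroup (Matrix.GeneralLinearGroup m K)), Fintype.card m = 4 * a * c ∧
      IsMTPair J G ∧ IsSplit J G (fun _ : Unit => (⊤ : Submodule K (m → K))) ∧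
      (∃ u ∈ G, IsQuadraticOn u ⊤ (2 * c * s)) ∧
      ¬ IsFull J G (fun _ : Unit => (⊤ : Submodule K (m → K))) := by
  have hskew : (Sm K a ⊗ₖ Qm K c).transpose = - (Sm K a ⊗ₖ Qm K c) := by
    rw [← Matrix.kroneckerMap_transpose, Sm_transpose, Qm_transpose]
    ext i j
    simp
  have hdet : (Sm K a ⊗ₖ Qm K c).det ≠ 0 := by
    have h : (Sm K a ⊗ₖ Qm K c) * (-(Sm K a ⊗ₖ Qm K c)) = 1 := by
      rw [mul_neg, ← Matrix.mul_kronecker_mul, Sm_sq, Qm_sq]
      ext i j
      rcases i with ⟨i, i'⟩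
      rcases j with ⟨j, j'⟩
      simp only [Matrix.neg_apply, Matrix.kroneckerMap_apply, Matrix.one_apply, Prod.mk.injEq]
      by_cases h1 : i = j <;> by_cases h2 : i' = j' <;> simp [h1, h2]
    intro h0
    have := congrArg Matrix.det h
    rw [Matrix.det_mul, h0, zero_mul, Matrix.det_one] at this
    exact zero_ne_one this
  refine ⟨(Fin 2 × Fin a) × (Fin 2 × Fin c), inferInstance, inferInstance, Sm K a ⊗ₖ Qm K c,
    GenG (Gens2 (Sm K a) (Qm K c)), ?_, isMTPair_gen hskew hdet Gens2_idem Gens2_lag, ?_,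
    exists_quad2 hs, ?_⟩
  · simp only [Fintype.card_prod, Fintype.card_fin]
    ring
  · refine ⟨?_, ?_, fun _ _ _ _ _ => trivial, ?_, ?_⟩
    · rw [DirectSum.isInternal_submodule_iff_iSupIndep_and_iSup_eq_top]
      refine ⟨?_, by simp⟩
      intro i
      simp
    · intro i j hij
      exact absurd (Subsingleton.elim i j) hij
    · intro _ U _ hU
      have hU' : ∀ π ∈ Gens2 (Sm K a) (Qm K c), Pres U π := by
        intro π hπ v hv
        obtain ⟨g, hg, hgt⟩ := (GenG_cochar (Gens2_idem π hπ) hπ).2 2 two_ne_zero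
        have h1 := hU g hg v hv
        have h2 : (g : Matrix _ _ K).mulVec v = π.mulVec v + v := by
          rw [hgt]
          have : (2 : K) • π + (1 - π) = π + 1 := by rw [two_smul]; abel
          rw [this, Matrix.add_mulVec, Matrix.one_mulVec]
        rw [h2] at h1
        have := U.sub_mem h1 hv
        rwa [add_sub_cancel_right] at this
      exact irr_of_units (left_units hU') (right_units hc hU')
    · intro i j hij
      exact absurd (Subsingleton.elim i j) hij
  · intro hfull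
    obtain ⟨g, hg, hgd⟩ := exists_not_dec2 (K := K) (a := a) (c := c) (by omega) (by omega)
    apply hgd
    have h1 := hfull g ⟨1, hg⟩ (fun _ _ _ => trivial)
    have : Nonempty (Fin 2 × Fin a) := ⟨(0, ⟨0, by omega⟩)⟩
    have : Nonempty (Fin 2 × Fin c) := ⟨(0, ⟨0, by omega⟩)⟩
    exact GenG_le Dec2_closed Gens2_dec h1

end TR
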